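import Pool.Agent.U511.BM.ALcore

set_option autoImplicit false

open Set Filter Topology ComplexConjugate

namespace Pool.Agent.U511.BM.AL

open Pool.Agent.U856.BM

/-! ### Algebraic numbers -/

/-- complex numbers with algebraic real and imaginary parts -/
def AC (z : ℂ) : Prop := IsAlgebraic ℚ z.re ∧ IsAlgebraic ℚ z.im

theorem AC.add {z w : ℂ} (hz : AC z) (hw : AC w) : AC (z + w) :=
  ⟨by rw [Complex.add_re]; exact hz.1.add hw.1, by rw [Complex.add_im]; exact hz.2.add hw.2⟩

theorem AC.sub {z w : ℂ} (hz : AC z) (hw : AC w) : AC (z - w) :=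
  ⟨by rw [Complex.sub_re]; exact hz.1.sub hw.1, by rw [Complex.sub_im]; exact hz.2.sub hw.2⟩

theorem AC.mul {z w : ℂ} (hz : AC z) (hw : AC w) : AC (z * w) :=
  ⟨by rw [Complex.mul_re]; exact (hz.1.mul hw.1).sub (hz.2.mul hw.2),
    by rw [Complex.mul_im]; exact (hz.1.mul hw.2).add (hz.2.mul hw.1)⟩

theorem AC.conj {z : ℂ} (hz : AC z) : AC (conj z) :=
  ⟨by rw [Complex.conj_re]; exact hz.1, by rw [Complex.conj_im]; exact hz.2.neg⟩

theorem AC.zero : AC 0 := ⟨isAlgebraic_zero, isAlgebraic_zero⟩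

theorem AC.sum {ι : Type*} (s : Finset ι) (f : ι → ℂ) (h : ∀ i ∈ s, AC (f i)) :
    AC (∑ i ∈ s, f i) := by
  classical
  induction s using Finset.induction_on with
  | empty => rw [Finset.sum_empty]; exact AC.zero
  | insert a s ha ih =>
    rw [Finset.sum_insert ha]
    exact (h a (Finset.mem_insert_self a s)).add
      (ih fun i hi => h i (Finset.mem_insert_of_mem hi))

theorem isAlg_of_pow {z : ℂ} {n : ℕ} (hn : 0 < n) (hz : z ^ n = 1) : IsAlgebraic ℚ z := by
  have h1 : IsIntegral ℚ (z ^ n) := by rw [hz]; exact isIntegral_one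
  exact (IsIntegral.of_pow hn h1).isAlgebraic

theorem AC.of_pow {z : ℂ} {n : ℕ} (hn : 0 < n) (hz : z ^ n = 1) : AC z := by
  have h1 := isAlg_of_pow hn hz
  have h2 : IsAlgebraic ℚ ((starRingEnd ℂ) z) := isAlg_of_pow hn (by rw [← map_pow, hz, map_one])
  have hI : IsAlgebraic ℚ Complex.I := isAlg_of_pow (n := 4) (by norm_num) Complex.I_pow_four
  have hhalf : IsAlgebraic ℚ ((1 / 2 : ℚ) : ℂ) := isAlgebraic_algebraMap (R := ℚ) (1 / 2 : ℚ)
  have hre : IsAlgebraic ℚ ((z.re : ℝ) : ℂ) := by
    have : ((z.re : ℝ) : ℂ) = ((1 / 2 : ℚ) : ℂ) * (z + (starRingEnd ℂ) z) := by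
      rw [Complex.add_conj]; push_cast; ring
    rw [this]
    exact hhalf.mul (h1.add h2)
  have him : IsAlgebraic ℚ ((z.im : ℝ) : ℂ) := by
    have : ((z.im : ℝ) : ℂ) = ((1 / 2 : ℚ) : ℂ) * (-Complex.I) * (z - (starRingEnd ℂ) z) := by
      rw [Complex.sub_conj]; push_cast
      linear_combination (z.im : ℂ) * Complex.I_sq
    rw [this]
    exact (hhalf.mul hI.neg).mul (h1.sub h2)
  exact ⟨(isAlgebraic_algebraMap_iff (R := ℚ) (algebraMap ℝ ℂ).injective).1 hre,
    (isAlgebraic_algebraMap_iff (R := ℚ) (algebraMap ℝ ℂ).injective).1 him⟩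

/-! ### The isometries -/

theorem G_add (i : St) (x y : ℂ) : G i (x + y) = G i x + G i y := by
  unfold G; split_ifs
  · ring
  · rw [map_add]; ring

theorem G_smul (i : St) (r : ℝ) (x : ℂ) : G i (r * x) = r * G i x := by
  unfold G; split_ifs
  · ring
  · rw [map_mul, Complex.conj_ofReal]; ring

theorem AC.G {i : St} {x : ℂ} (hi : AC i.1) (hx : AC x) : AC (G i x) := by
  unfold Pool.Agent.U856.BM.G; split_ifs
  · exact hi.mul hx
  · exact hi.mul hx.conj

/-- the powers of the squares of the normals -/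
theorem nS_pow {α : ℝ} {h q : ℕ} (hq : q ≠ 0) (hα : α = Real.pi * h / q) (j : Fin 5) :
    ((nS α j) ^ 2) ^ (2 * q) = 1 := by
  have h2 : (2 * q) = q * 2 := mul_comm _ _
  fin_cases j
  · simp [nS]
  · simp [nS, pow_mul]
  · simp [nS]
  · have h3 : nS α 3 = Complex.I * Complex.exp (-(α : ℂ) * Complex.I) := by
      rw [Complex.exp_mul_I]
      apply Complex.ext
      · simp [nS, Complex.cos_ofReal_re, Complex.sin_ofReal_re]
      · simp [nS, Complex.cos_ofReal_re, Complex.sin_ofReal_re]
    change ((nS α 3) ^ 2) ^ (2 * q) = 1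
    rw [h3, mul_pow, Complex.I_sq, mul_pow, ← Complex.exp_nat_mul, ← Complex.exp_nat_mul]
    have h4 : ((2 * q : ℕ) : ℂ) * (((2 : ℕ) : ℂ) * (-(α : ℂ) * Complex.I)) =
        ((-(2 * h : ℤ) : ℤ) : ℂ) * (2 * Real.pi * Complex.I) := by
      rw [hα]
      have : (q : ℂ) ≠ 0 := Nat.cast_ne_zero.2 hq
      push_cast
      field_simp
    rw [h4, Complex.exp_int_mul_two_pi_mul_I, pow_mul]
    norm_num
  · simp [nS, pow_mul]

theorem Al_rs {α : ℝ} {h q : ℕ} (hq : q ≠ 0) (hα : α = Real.pi * h / q) (j : Fin 5) (i : St)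
    (hi : Al q i) : Al q (rs α j i) := by
  unfold Al at *
  unfold rs
  simp only
  rw [Even.neg_pow (even_two_mul q), mul_pow, hi, one_mul]
  split_ifs
  · exact nS_pow hq hα j
  · rw [← map_pow, nS_pow hq hα j, map_one]

theorem Al_path {a b α : ℝ} {h q N : ℕ} (hq : q ≠ 0) (hα : α = Real.pi * h / q) {i : ℕ → St}
    {j : ℕ → Fin 5} (hi : Al q (i 0)) (hP : Pth a b α N i j) : ∀ k ≤ N, Al q (i k) := by
  intro k
  induction k with
  | zero => intro _; exact hi
  | succ k ih =>
    intro hk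
    rw [(hP k (by omega)).1]
    exact Al_rs hq hα _ _ (ih (by omega))

/-- the linear form `a im z - b re z` -/
def lf (a b : ℝ) (z : ℂ) : ℝ := a * z.im - b * z.re

theorem lf_add (a b : ℝ) (z w : ℂ) : lf a b (z + w) = lf a b z + lf a b w := by
  simp only [lf, Complex.add_re, Complex.add_im]; ring

theorem lf_sub (a b : ℝ) (z w : ℂ) : lf a b (z - w) = lf a b z - lf a b w := by
  simp only [lf, Complex.sub_re, Complex.sub_im]; ring

theorem lf_smul (a b r : ℝ) (z : ℂ) : lf a b (r * z) = r * lf a b z := by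
  simp only [lf, Complex.mul_re, Complex.mul_im, Complex.ofReal_re, Complex.ofReal_im]; ring

theorem lf_sum (a b : ℝ) (s : Finset ℕ) (f : ℕ → ℂ) :
    lf a b (∑ i ∈ s, f i) = ∑ i ∈ s, lf a b (f i) := by
  simp only [lf, Complex.re_sum, Complex.im_sum, Finset.mul_sum, Finset.sum_sub_distrib]

theorem cr_dd (a b : ℝ) (z : ℂ) : cr (dd a b) z = lf a b z / √(a ^ 2 + b ^ 2) := by
  simp only [cr, dd, lf]; ring

open Classical in
/-- the indicator of the incidence of a vertex and a side -/
noncomputable def on (w s : Fin 5) : ℝ := if onSide w s then 1 else 0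

/-- the part of the vertex proportional to `v` -/
noncomputable def vp (α : ℝ) : Fin 5 → ℂ := ![0, 0, 0, ⟨0, -(1 / Real.cos α)⟩, ⟨-(1 / Real.sin α), 0⟩]

theorem vS_eq (a b v α : ℝ) (w : Fin 5) : vS a b v α w = ((a * on w 0 : ℝ) : ℂ) * nS α 0 +
    ((b * on w 1 : ℝ) : ℂ) * nS α 1 + (v : ℂ) * vp α w := by
  fin_cases w <;> apply Complex.ext <;> simp [vS, on, onSide, nS, vp] <;> ring

/-- the weight of the vertex for the side `s` -/
noncomputable def onO (w : Option (Fin 5)) (s : Fin 5) : ℝ := match w with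
  | none => 0
  | some w => on w s

noncomputable def vpO (α : ℝ) (w : Option (Fin 5)) : ℂ := match w with
  | none => 0
  | some w => vp α w

/-- the coefficients -/
noncomputable def HH (α : ℝ) (N : ℕ) (i : ℕ → St) (j : ℕ → Fin 5) (ks ke : Option (Fin 5))
    (s : Fin 5) : ℂ :=
  ∑ k ∈ Finset.range N, ((if j k = s then (2 : ℝ) else 0 : ℝ) : ℂ) * G (i k) (nS α s) +
    (onO ke s : ℂ) * G (i N) (nS α s) - (onO ks s : ℂ) * G (i 0) (nS α s)

noncomputable def HV (α : ℝ) (N : ℕ) (i : ℕ → St) (j : ℕ → Fin 5) (ks ke : Option (Fin 5)) : ℂ :=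
  ∑ k ∈ Finset.range N, ((if j k = 3 then (-2 : ℝ) else 0 : ℝ) : ℂ) * G (i k) (nS α 3) +
    G (i N) (vpO α ke) - G (i 0) (vpO α ks)

theorem G_zero (i : St) : G i 0 = 0 := by unfold G; split_ifs <;> simp

theorem step_eq (a b v α : ℝ) (s : Fin 5) (i : St) :
    2 * oS a b v s * lf a b (G i (nS α s)) =
      a * ((if s = 0 then (2 : ℝ) else 0) * lf a b (G i (nS α 0))) +
      b * ((if s = 1 then (2 : ℝ) else 0) * lf a b (G i (nS α 1))) +
      v * ((if s = 3 then (-2 : ℝ) else 0) * lf a b (G i (nS α 3))) := by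
  fin_cases s <;> simp [oS] <;> ring

theorem rel {a b v α : ℝ} (hL : 0 < a ^ 2 + b ^ 2) {N : ℕ} {i : ℕ → St} {j : ℕ → Fin 5}
    {ks ke : Option (Fin 5)} (hC : Clo a b v α N i j ks ke) :
    a * lf a b (HH α N i j ks ke 0) + b * lf a b (HH α N i j ks ke 1) +
      v * lf a b (HV α N i j ks ke) = 0 := by
  have hL' : √(a ^ 2 + b ^ 2) ≠ 0 := (Real.sqrt_pos.2 hL).ne'
  have hsum : ∑ k ∈ Finset.range N, 2 * oS a b v (j k) * cr (dd a b) (G (i k) (nS α (j k))) =
      (a * ∑ k ∈ Finset.range N, (if j k = 0 then (2 : ℝ) else 0) * lf a b (G (i k) (nS α 0)) +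
        b * ∑ k ∈ Finset.range N, (if j k = 1 then (2 : ℝ) else 0) * lf a b (G (i k) (nS α 1)) +
        v * ∑ k ∈ Finset.range N, (if j k = 3 then (-2 : ℝ) else 0) * lf a b (G (i k) (nS α 3))) /
        √(a ^ 2 + b ^ 2) := by
    rw [Finset.mul_sum, Finset.mul_sum, Finset.mul_sum, ← Finset.sum_add_distrib,
      ← Finset.sum_add_distrib, Finset.sum_div]
    refine Finset.sum_congr rfl fun k _ => ?_
    rw [cr_dd, ← step_eq]; ring
  have hH : ∀ s, lf a b (HH α N i j ks ke s) =
      ∑ k ∈ Finset.range N, (if j k = s then (2 : ℝ) else 0) * lf a b (G (i k) (nS α s)) +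
      onO ke s * lf a b (G (i N) (nS α s)) - onO ks s * lf a b (G (i 0) (nS α s)) := by
    intro s
    unfold HH
    rw [lf_sub, lf_add, lf_sum, lf_smul, lf_smul]
    congr 2
    exact Finset.sum_congr rfl fun k _ => lf_smul _ _ _ _
  have hV : lf a b (HV α N i j ks ke) =
      ∑ k ∈ Finset.range N, (if j k = 3 then (-2 : ℝ) else 0) * lf a b (G (i k) (nS α 3)) +
      lf a b (G (i N) (vpO α ke)) - lf a b (G (i 0) (vpO α ks)) := by
    unfold HV
    rw [lf_sub, lf_add, lf_sum]
    congr 2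
    exact Finset.sum_congr rfl fun k _ => lf_smul _ _ _ _
  rw [hH, hH, hV]
  rcases hC with ⟨rfl, rfl, _, _, h0⟩ | ⟨w, w', rfl, rfl, _, _, h0⟩
  · rw [hsum, div_eq_zero_iff, or_iff_left hL'] at h0
    have hz : lf a b 0 = 0 := by simp [lf]
    simp only [onO, vpO, G_zero, hz]
    linear_combination h0
  · rw [hsum] at h0
    unfold uu at h0
    rw [cr_dd, cr_dd, div_sub_div_same, div_left_inj' hL'] at h0
    rw [vS_eq, vS_eq a b v α w'] at h0
    simp only [G_add, G_smul, lf_add, lf_smul] at h0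
    simp only [onO, vpO]
    linear_combination -h0

theorem coeffalg (r : ℝ) (i j : Fin 3) (hr : IsAlgebraic ℚ r) (m : Fin 3 →₀ ℕ) :
    IsAlgebraic ℚ (MvPolynomial.coeff m (MvPolynomial.C r * (MvPolynomial.X i * MvPolynomial.X j) :
      MvPolynomial (Fin 3) ℝ)) := by
  classical
  rw [MvPolynomial.coeff_C_mul]
  refine hr.mul ?_
  rw [MvPolynomial.X, MvPolynomial.X, MvPolynomial.monomial_mul, MvPolynomial.coeff_monomial]
  split_ifs
  · rw [mul_one]; exact isAlgebraic_one
  · exact isAlgebraic_zero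

/-- The consequences of the generic choice of the parameters. -/
theorem gen_zero {a b v : ℝ} (hG : Gen a b v) (H0 H1 HV : ℂ) (h0 : AC H0) (h1 : AC H1) (hV : AC HV)
    (h : a * lf a b H0 + b * lf a b H1 + v * lf a b HV = 0) : H0.im = 0 ∧ H1.re = 0 := by
  let F : MvPolynomial (Fin 3) ℝ :=
    MvPolynomial.C H0.im * (MvPolynomial.X 0 * MvPolynomial.X 0) +
    MvPolynomial.C (H1.im - H0.re) * (MvPolynomial.X 0 * MvPolynomial.X 1) +
    MvPolynomial.C (-H1.re) * (MvPolynomial.X 1 * MvPolynomial.X 1) +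
    MvPolynomial.C HV.im * (MvPolynomial.X 0 * MvPolynomial.X 2) +
    MvPolynomial.C (-HV.re) * (MvPolynomial.X 1 * MvPolynomial.X 2)
  have hF : F = 0 := by
    apply hG
    · intro m
      simp only [F, MvPolynomial.coeff_add]
      exact (((((coeffalg _ _ _ h0.2 m).add (coeffalg _ _ _ (h1.2.sub h0.1) m)).add
        (coeffalg _ _ _ h1.1.neg m)).add (coeffalg _ _ _ hV.2 m)).add
        (coeffalg _ _ _ hV.1.neg m))
    · simp only [F, map_add, map_mul, MvPolynomial.eval_C, MvPolynomial.eval_X]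
      simp only [lf] at h
      simp
      linear_combination h
  constructor
  · have := congrArg (MvPolynomial.eval ![1, 0, 0]) hF
    simpa [F] using this
  · have := congrArg (MvPolynomial.eval ![0, 1, 0]) hF
    simpa [F] using this

theorem dt_neg' (z w : ℂ) : dt z (-w) = - dt z w := by
  simp only [dt, Complex.neg_re, Complex.neg_im]; ring

/-- The application of the core lemma for the side `s` (`s = 0`: `μ = 1`, `s = 1`: `μ = -I`). -/
theorem side {a b α : ℝ} {q : ℕ} (hq : q.Prime) (hq2 : 5 ≤ q) {N : ℕ} {i : ℕ → St} {j : ℕ → Fin 5}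
    {ks ke : Option (Fin 5)} (s : Fin 5) (μ : ℂ)
    (hμ : ∀ k ≤ N, (μ * G (i k) (nS α s)) ^ (2 * q) = 1)
    (hpos : ∀ n, Occ α N i j ks ke s n → 0 < dt (dd a b) n)
    (hsum : (μ * HH α N i j ks ke s).im = 0) :
    ∀ n, Occ α N i j ks ke s n → ∃ n', Occ α N i j ks ke s n' ∧ μ * n' = conj (μ * n) := by
  classical
  have hμ0 : μ ≠ 0 := by
    rintro rfl
    have := hμ 0 (Nat.zero_le _)
    rw [zero_mul, zero_pow (by have := hq.pos; omega)] at this
    exact zero_ne_one this
  -- the family of the occurrences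
  let nn : ℕ → ℂ := fun t => if t < N then G (i t) (nS α s) else if t = N then -G (i 0) (nS α s)
    else G (i N) (nS α s)
  let on' : Option (Fin 5) → ℚ := fun w => if ∃ w', w = some w' ∧ onSide w' s then 1 else 0
  have hon : ∀ w, ((on' w : ℚ) : ℝ) = onO w s := by
    intro w
    rcases w with _ | w
    · simp [on', onO]
    · simp only [on', onO, on, Option.some.injEq, exists_eq_left']
      split_ifs <;> simp
  let c : ℕ → ℚ := fun t => if t < N then (if j t = s then 2 else 0) else if t = N then on' ks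
    else on' ke
  have hOcc : ∀ t < N + 2, 0 < c t → Occ α N i j ks ke s (nn t) := by
    intro t ht hct
    by_cases h1 : t < N
    · simp only [c, nn, h1, if_true] at hct ⊢
      refine Or.inl ⟨t, h1, ?_, rfl⟩
      by_contra h2
      rw [if_neg h2] at hct
      exact lt_irrefl _ hct
    · by_cases h2 : t = N
      · simp only [c, nn, h1, h2, if_false, if_true, lt_irrefl] at hct ⊢
        refine Or.inr (Or.inl ?_)
        by_contra h3
        have : on' ks = 0 := by
          simp only [on']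
          rw [if_neg]
          rintro ⟨w, hw1, hw2⟩
          exact h3 ⟨w, hw1, hw2, rfl⟩
        rw [this] at hct
        exact lt_irrefl _ hct
      · simp only [c, nn, h1, h2, if_false] at hct ⊢
        refine Or.inr (Or.inr ?_)
        by_contra h3
        have : on' ke = 0 := by
          simp only [on']
          rw [if_neg]
          rintro ⟨w, hw1, hw2⟩
          exact h3 ⟨w, hw1, hw2, rfl⟩
        rw [this] at hct
        exact lt_irrefl _ hct
  have hOcc' : ∀ n, Occ α N i j ks ke s n → ∃ t < N + 2, 0 < c t ∧ nn t = n := by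
    rintro n (⟨k, hk, hjk, rfl⟩ | ⟨w, hw1, hw2, rfl⟩ | ⟨w, hw1, hw2, rfl⟩)
    · refine ⟨k, by omega, ?_, ?_⟩
      · simp only [c, hk, if_true, hjk]; norm_num
      · simp only [nn, hk, if_true]
    · refine ⟨N, by omega, ?_, ?_⟩
      · simp only [c, lt_irrefl, if_false, if_true, on']
        rw [if_pos ⟨w, hw1, hw2⟩]; norm_num
      · simp only [nn, lt_irrefl, if_false, if_true]
    · refine ⟨N + 1, by omega, ?_, ?_⟩
      · have h1 : ¬ (N + 1 < N) := by omega
        have h2 : ¬ (N + 1 = N) := by omega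
        simp only [c, h1, h2, if_false, on']
        rw [if_pos ⟨w, hw1, hw2⟩]; norm_num
      · have h1 : ¬ (N + 1 < N) := by omega
        have h2 : ¬ (N + 1 = N) := by omega
        simp only [nn, h1, h2, if_false]
  have hc : ∀ t, 0 ≤ c t := by
    intro t
    simp only [c, on']
    split_ifs <;> norm_num
  have hn : ∀ t < N + 2, (μ * nn t) ^ (2 * q) = 1 := by
    intro t ht
    simp only [nn]
    split_ifs with h1 h2
    · exact hμ t h1.le
    · rw [mul_neg, Even.neg_pow (even_two_mul q)]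
      exact hμ 0 (Nat.zero_le _)
    · exact hμ N le_rfl
  have hne : ∀ t < N + 2, ∀ t' < N + 2, 0 < c t → 0 < c t' → μ * nn t ≠ -(μ * nn t') := by
    intro t ht t' ht' hct hct' heq
    have h1 : nn t = -nn t' := by
      apply mul_left_cancel₀ hμ0
      rw [heq, mul_neg]
    have h2 := hpos _ (hOcc t ht hct)
    have h3 := hpos _ (hOcc t' ht' hct')
    rw [h1, dt_neg'] at h2
    linarith
  have hsum' : ∑ t ∈ Finset.range (N + 2), (c t : ℝ) * (μ * nn t).im = 0 := by
    have hN1 : ¬ (N + 1 < N) := by omega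
    have hN2 : ¬ (N + 1 = N) := by omega
    rw [Finset.sum_range_succ, Finset.sum_range_succ]
    have h1 : ∑ t ∈ Finset.range N, (c t : ℝ) * (μ * nn t).im =
        ∑ t ∈ Finset.range N, (if j t = s then (2 : ℝ) else 0) * (μ * G (i t) (nS α s)).im := by
      refine Finset.sum_congr rfl fun t ht => ?_
      have ht' := Finset.mem_range.1 ht
      simp only [c, nn, ht', if_true]
      split_ifs <;> simp
    have h2 : (c N : ℝ) * (μ * nn N).im = -(onO ks s * (μ * G (i 0) (nS α s)).im) := by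
      simp only [c, nn, lt_irrefl, if_false, if_true, hon, mul_neg, Complex.neg_im]
    have h3 : (c (N + 1) : ℝ) * (μ * nn (N + 1)).im = onO ke s * (μ * G (i N) (nS α s)).im := by
      simp only [c, nn, hN1, hN2, if_false, hon]
    rw [h1, h2, h3]
    have him : ∀ (r : ℝ) (z : ℂ), (μ * ((r : ℂ) * z)).im = r * (μ * z).im := by
      intro r z
      have : μ * ((r : ℂ) * z) = (r : ℂ) * (μ * z) := by ring
      rw [this, Complex.mul_im]
      simp
    refine Eq.trans ?_ hsum
    unfold HH
    rw [mul_sub, mul_add, Finset.mul_sum, Complex.sub_im, Complex.add_im, Complex.im_sum, him, him]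
    simp only [him]
    ring
  intro n hnO
  obtain ⟨t, ht, hct, rfl⟩ := hOcc' n hnO
  obtain ⟨t', ht', hct', heq⟩ := core q hq hq2 (N + 2) (fun t => μ * nn t) c hc hn hne hsum' t ht hct
  exact ⟨nn t', hOcc t' ht' hct', heq⟩

/-- **AL**. -/
theorem t_AL : S_AL := by
  intro a b v α h q hR N i j ks ke hi hP hC
  obtain ⟨hOk, hG, hq, hq2, hα⟩ := hR
  have hL : 0 < a ^ 2 + b ^ 2 := by
    have h1 : 0.99 < a := hOk.1
    have : 0 < a := by linarith
    positivity
  have hAl := Al_path hq.ne_zero hα hi hP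
  have hq0 : 0 < 2 * q := by have := hq.pos; omega
  have hpos : ∀ s n, Occ α N i j ks ke s n → 0 < dt (dd a b) n := by
    rintro s n (⟨k, hk, hjk, rfl⟩ | ⟨w, hw1, hw2, rfl⟩ | ⟨w, hw1, hw2, rfl⟩)
    · rw [← hjk]; exact (hP k hk).2
    · rcases hC with ⟨rfl, _⟩ | ⟨w1, w2, rfl, rfl, h1, h2, _⟩
      · cases hw1
      · cases hw1
        rw [dt_neg']
        linarith [h1 s hw2]
    · rcases hC with ⟨_, rfl, _⟩ | ⟨w1, w2, rfl, rfl, h1, h2, _⟩
      · cases hw1
      · cases hw1
        exact h2 s hw2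
  have hACn : ∀ s : Fin 5, AC (nS α s) := fun s => by
    refine AC.of_pow (n := 2 * (2 * q)) (by omega) ?_
    rw [pow_mul]; exact nS_pow hq.ne_zero hα s
  have hACi : ∀ k ≤ N, AC (i k).1 := fun k hk => AC.of_pow hq0 (hAl k hk)
  have hACr : ∀ r : ℝ, IsAlgebraic ℚ r → AC (r : ℂ) := fun r hr =>
    ⟨by simpa using hr, by simpa using isAlgebraic_zero⟩
  have halg2 : IsAlgebraic ℚ (2 : ℝ) := by
    have := isAlgebraic_algebraMap (R := ℚ) (A := ℝ) (2 : ℚ)
    simpa using this
  have honO : ∀ w s, IsAlgebraic ℚ (onO w s) := by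
    intro w s
    rcases w with _ | w
    · exact isAlgebraic_zero
    · simp only [onO, on]
      split_ifs
      · exact isAlgebraic_one
      · exact isAlgebraic_zero
  have hHH : ∀ s, AC (HH α N i j ks ke s) := by
    intro s
    unfold HH
    refine ((AC.sum _ _ fun k hk => ?_).add ?_).sub ?_
    · refine (hACr _ ?_).mul (AC.G (hACi k (Finset.mem_range.1 hk).le) (hACn s))
      split_ifs
      · exact halg2
      · exact isAlgebraic_zero
    · exact (hACr _ (honO _ _)).mul (AC.G (hACi N le_rfl) (hACn s))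
    · exact (hACr _ (honO _ _)).mul (AC.G (hACi 0 (Nat.zero_le _)) (hACn s))
  have hvp : ∀ w, AC (vpO α w) := by
    intro w
    rcases w with _ | w
    · exact AC.zero
    · have hsin : IsAlgebraic ℚ (Real.sin α) := (hACn 3).1
      have hcos : IsAlgebraic ℚ (Real.cos α) := (hACn 3).2
      change AC (vp α w)
      fin_cases w
      · exact AC.zero
      · exact AC.zero
      · exact AC.zero
      · refine ⟨isAlgebraic_zero, ?_⟩
        change IsAlgebraic ℚ (-(1 / Real.cos α))
        rw [one_div]; exact hcos.inv.neg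
      · refine ⟨?_, isAlgebraic_zero⟩
        change IsAlgebraic ℚ (-(1 / Real.sin α))
        rw [one_div]; exact hsin.inv.neg
  have hHV : AC (HV α N i j ks ke) := by
    unfold HV
    refine ((AC.sum _ _ fun k hk => ?_).add ?_).sub ?_
    · refine (hACr _ ?_).mul (AC.G (hACi k (Finset.mem_range.1 hk).le) (hACn 3))
      split_ifs
      · exact halg2.neg
      · exact isAlgebraic_zero
    · exact AC.G (hACi N le_rfl) (hvp _)
    · exact AC.G (hACi 0 (Nat.zero_le _)) (hvp _)
  obtain ⟨hz0, hz1⟩ := gen_zero hG _ _ _ (hHH 0) (hHH 1) hHV (rel hL hC)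
  refine ⟨hpos, ?_, ?_⟩
  · intro n hn
    obtain ⟨n', hn', heq⟩ := side hq hq2 (a := a) (b := b) 0 1 (fun k hk => by
      rw [one_mul]
      have h1 : G (i k) (nS α 0) = -(i k).1 := by
        unfold G; simp [nS]
      rw [h1, Even.neg_pow (even_two_mul q)]
      exact hAl k hk) (hpos 0) (by rw [one_mul]; exact hz0) n hn
    rw [one_mul, one_mul] at heq
    rw [← heq]; exact hn'
  · intro n hn
    obtain ⟨n', hn', heq⟩ := side hq hq2 (a := a) (b := b) 1 (-Complex.I) (fun k hk => by
      have h1 : -Complex.I * G (i k) (nS α 1) = -(i k).1 ∨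
          -Complex.I * G (i k) (nS α 1) = (i k).1 := by
        unfold G; split_ifs
        · left
          change -Complex.I * ((i k).1 * (-Complex.I)) = _
          linear_combination (i k).1 * Complex.I_sq
        · right
          change -Complex.I * ((i k).1 * (starRingEnd ℂ) (-Complex.I)) = _
          rw [map_neg, Complex.conj_I]
          linear_combination -(i k).1 * Complex.I_sq
      rcases h1 with h1 | h1 <;> rw [h1]
      · rw [Even.neg_pow (even_two_mul q)]; exact hAl k hk
      · exact hAl k hk) (hpos 1) (by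
        rw [Complex.mul_im]; simp [hz1]) n hn
    have h2 : n' = -conj n := by
      rw [map_mul, map_neg, Complex.conj_I] at heq
      have : (Complex.I * Complex.I) * n' = (Complex.I * Complex.I) * (-conj n) := by
        linear_combination (-Complex.I) * heq
      rw [Complex.I_mul_I] at this
      linear_combination -this
    rw [← h2]; exact hn'

end Pool.Agent.U511.BM.AL
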