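import Pool.Agent.U856.BM.Stm2

set_option autoImplicit false

open Set Filter Topology ComplexConjugate

namespace Pool.Agent.U511.BM.AL

open Pool.Agent.U856.BM

/-- The linear relations between the powers of a root of unity of prime order. -/
theorem cyc (q : ℕ) (hq : q.Prime) (ζ : ℂ) (hζ : IsPrimitiveRoot ζ q) (P : Polynomial ℚ)
    (hP : P.natDegree < q) (h0 : P.coeff 0 = 0) (hr : Polynomial.aeval ζ P = 0) : P = 0 := by
  have h1 : Polynomial.cyclotomic q ℚ ∣ P := by
    rw [Polynomial.cyclotomic_eq_minpoly_rat hζ hq.pos]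
    exact minpoly.dvd ℚ ζ hr
  obtain ⟨R, hR⟩ := h1
  by_contra hne
  have hR0 : R ≠ 0 := by rintro rfl; exact hne (by rw [hR, mul_zero])
  have hc0 : Polynomial.cyclotomic q ℚ ≠ 0 := Polynomial.cyclotomic_ne_zero q ℚ
  have hd : P.natDegree = (q - 1) + R.natDegree := by
    rw [hR, Polynomial.natDegree_mul hc0 hR0, Polynomial.natDegree_cyclotomic,
      Nat.totient_prime hq]
  have hRd : R.natDegree = 0 := by have := hq.one_lt; omega
  have h2 : R.coeff 0 = 0 := by
    rw [hR, Polynomial.mul_coeff_zero, Polynomial.cyclotomic_coeff_zero ℚ hq.one_lt, one_mul] at h0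
    exact h0
  rw [Polynomial.eq_C_of_natDegree_eq_zero hRd, h2, Polynomial.C_0] at hR0
  exact hR0 rfl

/-- The core of the algebraic lemma. -/
theorem core (q : ℕ) (hq : q.Prime) (hq2 : 5 ≤ q) (M : ℕ) (n : ℕ → ℂ) (c : ℕ → ℚ)
    (hc : ∀ t, 0 ≤ c t) (hn : ∀ t < M, n t ^ (2 * q) = 1)
    (hne : ∀ t < M, ∀ t' < M, 0 < c t → 0 < c t' → n t ≠ -n t')
    (hsum : ∑ t ∈ Finset.range M, (c t : ℝ) * (n t).im = 0) :
    ∀ t < M, 0 < c t → ∃ t' < M, 0 < c t' ∧ n t' = conj (n t) := by
  classical
  obtain ⟨ζ, hζ⟩ : ∃ ζ : ℂ, IsPrimitiveRoot ζ q := ⟨_, Complex.isPrimitiveRoot_exp q hq.ne_zero⟩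
  have : NeZero q := ⟨hq.ne_zero⟩
  have hodd : Odd q := hq.odd_of_ne_two (by omega)
  have hrep : ∀ t : ℕ, ∃ (e : ℚ) (m : ℕ), t < M → ((e = 1 ∨ e = -1) ∧ m < q ∧
      n t = (e : ℂ) * ζ ^ m) := by
    intro t
    by_cases ht : t < M
    · have h1 : (n t ^ q - 1) * (n t ^ q + 1) = 0 := by
        have := hn t ht
        rw [mul_comm, pow_mul] at this
        linear_combination this
      rcases mul_eq_zero.1 h1 with h2 | h2
      · obtain ⟨m, hm, hm2⟩ := hζ.eq_pow_of_pow_eq_one (sub_eq_zero.1 h2)
        exact ⟨1, m, fun _ => ⟨Or.inl rfl, hm, by rw [hm2]; simp⟩⟩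
      · have h3 : (-n t) ^ q = 1 := by
          rw [hodd.neg_pow]; linear_combination -h2
        obtain ⟨m, hm, hm2⟩ := hζ.eq_pow_of_pow_eq_one h3
        exact ⟨-1, m, fun _ => ⟨Or.inr rfl, hm, by rw [hm2]; simp⟩⟩
    · exact ⟨0, 0, fun h => absurd h ht⟩
  choose e m hem using hrep
  have hconj : ∀ k < q, conj (ζ ^ k) = ζ ^ ((q - k) % q) := by
    intro k hk
    rw [← pow_eq_pow_mod _ hζ.pow_eq_one]
    have hnorm : ‖ζ ^ k‖ = 1 := by rw [norm_pow, hζ.norm'_eq_one hq.ne_zero, one_pow]
    rw [← Complex.inv_eq_conj hnorm]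
    have : ζ ^ (q - k) * ζ ^ k = 1 := by
      rw [← pow_add, Nat.sub_add_cancel hk.le, hζ.pow_eq_one]
    exact (eq_inv_of_mul_eq_one_left this).symm
  let P : Polynomial ℚ := ∑ t ∈ Finset.range M, Polynomial.C (c t * e t) *
    (Polynomial.X ^ (m t) - Polynomial.X ^ ((q - m t) % q))
  have hcoeff : ∀ k, P.coeff k = ∑ t ∈ Finset.range M, c t * e t *
      ((if k = m t then 1 else 0) - (if k = (q - m t) % q then 1 else 0)) := by
    intro k
    simp only [P, Polynomial.finsetSum_coeff, Polynomial.coeff_C_mul, Polynomial.coeff_sub,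
      Polynomial.coeff_X_pow]
  have hmod : ∀ k < q, (0 = (q - k) % q ↔ 0 = k) := by
    intro k hk
    constructor
    · intro h
      by_contra h0
      have : q - k < q := by omega
      rw [Nat.mod_eq_of_lt this] at h
      omega
    · rintro rfl
      simp
  have hP0 : P.coeff 0 = 0 := by
    rw [hcoeff]
    refine Finset.sum_eq_zero fun t ht => ?_
    have htM := Finset.mem_range.1 ht
    rw [if_congr (hmod (m t) (hem t htM).2.1) rfl rfl, sub_self, mul_zero]
  have hPd : P.natDegree < q := by
    have h1 : P.natDegree ≤ q - 1 := by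
      rw [Polynomial.natDegree_le_iff_coeff_eq_zero]
      intro k hk
      rw [hcoeff]
      refine Finset.sum_eq_zero fun t ht => ?_
      have htM := Finset.mem_range.1 ht
      have h2 := (hem t htM).2.1
      have h3 : (q - m t) % q < q := Nat.mod_lt _ hq.pos
      rw [if_neg (by omega), if_neg (by omega), sub_self, mul_zero]
    have := hq.pos
    omega
  have hPr : Polynomial.aeval ζ P = 0 := by
    have h1 : Polynomial.aeval ζ P = ∑ t ∈ Finset.range M, (2 * Complex.I) *
        (((c t : ℝ) * (n t).im : ℝ) : ℂ) := by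
      simp only [P, map_sum, map_mul, map_sub, Polynomial.aeval_C, Polynomial.aeval_X_pow]
      refine Finset.sum_congr rfl fun t ht => ?_
      have htM := Finset.mem_range.1 ht
      obtain ⟨he, hm, hnt⟩ := hem t htM
      have h2 : n t - conj (n t) = 2 * Complex.I * ((n t).im : ℂ) := by
        rw [Complex.sub_conj]; push_cast; ring
      have h3 : conj (n t) = (e t : ℂ) * conj (ζ ^ m t) := by
        conv_lhs => rw [hnt]
        rw [map_mul]
        congr 1
        rcases he with h | h <;> rw [h] <;> simp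
      rw [← hconj _ hm]
      push_cast
      have h4 : (2 * Complex.I) * ((c t : ℂ) * ((n t).im : ℂ)) = (c t : ℂ) *
          (n t - conj (n t)) := by rw [h2]; ring
      rw [h4, h3]
      conv_rhs => rw [hnt]
      simp only [eq_ratCast]
      push_cast
      ring
    rw [h1, ← Finset.mul_sum, ← Complex.ofReal_sum, hsum]
    simp
  have hPz := cyc q hq ζ hζ P hPd hP0 hPr
  intro t0 ht0 hct0
  by_contra hcon
  push Not at hcon
  obtain ⟨he0, hm0, hn0⟩ := hem t0 ht0
  have hk := hcoeff (m t0)
  rw [hPz, Polynomial.coeff_zero] at hk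
  have hk2 : ∑ t ∈ Finset.range M, c t * e t * e t0 *
      ((if m t0 = m t then 1 else 0) - (if m t0 = (q - m t) % q then 1 else 0)) = 0 := by
    have : ∑ t ∈ Finset.range M, c t * e t * e t0 *
      ((if m t0 = m t then 1 else 0) - (if m t0 = (q - m t) % q then 1 else 0)) =
      e t0 * ∑ t ∈ Finset.range M, c t * e t *
      ((if m t0 = m t then 1 else 0) - (if m t0 = (q - m t) % q then 1 else 0)) := by
      rw [Finset.mul_sum]
      exact Finset.sum_congr rfl fun t _ => by ring
    rw [this, ← hk, mul_zero]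
  have he00 : e t0 * e t0 = 1 := by rcases he0 with h | h <;> rw [h] <;> norm_num
  -- the two parts
  have hA : ∀ t < M, 0 ≤ c t * e t * e t0 * (if m t0 = m t then 1 else 0) := by
    intro t ht
    split_ifs with h
    · rcases (hc t).eq_or_lt with h0 | h0
      · rw [← h0]; simp
      · obtain ⟨he, hm, hnt⟩ := hem t ht
        have : e t = e t0 := by
          by_contra hee
          apply hne t ht t0 ht0 h0 hct0
          rw [hnt, hn0, ← h]
          have : e t = - e t0 := by
            rcases he with h1 | h1 <;> rcases he0 with h2 | h2 <;> rw [h1, h2] at hee ⊢ <;>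
              first | exact absurd rfl hee | norm_num | (exfalso; apply hee; norm_num)
          rw [this]; push_cast; ring
        rw [this, mul_assoc (c t), he00]; simp [hc t]
    · simp
  have hB : ∀ t < M, 0 ≤ - (c t * e t * e t0 * (if m t0 = (q - m t) % q then 1 else 0)) := by
    intro t ht
    split_ifs with h
    · rcases (hc t).eq_or_lt with h0 | h0
      · rw [← h0]; simp
      · obtain ⟨he, hm, hnt⟩ := hem t ht
        have : e t = - e t0 := by
          by_contra hee
          apply hcon t ht h0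
          have : e t = e t0 := by
            rcases he with h1 | h1 <;> rcases he0 with h2 | h2 <;> rw [h1, h2] at hee ⊢ <;>
              first | exact absurd rfl hee | norm_num | (exfalso; apply hee; norm_num)
          have h5 : conj (ζ ^ (m t0)) = ζ ^ (m t) := by
            rw [h, ← hconj _ hm, Complex.conj_conj]
          rw [hn0, map_mul, h5, hnt, this]
          congr 1
          rcases he0 with h | h <;> rw [h] <;> simp
        rw [this, mul_neg, neg_mul, neg_mul, neg_neg, mul_assoc (c t), he00]; simp [hc t]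
    · simp
  have hpos : 0 < ∑ t ∈ Finset.range M, c t * e t * e t0 *
      ((if m t0 = m t then 1 else 0) - (if m t0 = (q - m t) % q then 1 else 0)) := by
    refine Finset.sum_pos' (fun t ht => ?_) ⟨t0, Finset.mem_range.2 ht0, ?_⟩
    · have h1 := hA t (Finset.mem_range.1 ht)
      have h2 := hB t (Finset.mem_range.1 ht)
      rw [mul_sub]; linarith
    · have h2 := hB t0 ht0
      rw [mul_sub, if_pos rfl, mul_one, mul_assoc (c t0), he00, mul_one]
      rw [mul_assoc (c t0), he00, mul_one] at h2
      linarith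
  exact absurd hk2 hpos.ne'

end Pool.Agent.U511.BM.AL
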