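import Pool.Agent.U856.BM.Stm2

/-!
# Project BM, package KE: the abstract Keane lemma
-/

set_option autoImplicit false

open Set Filter Topology ComplexConjugate

namespace Pool.Agent.U511.BM.KE

open Pool.Agent.U856.BM Relation

/-- Right neighbourhoods, forward orbits. -/
theorem main (ι κ : Type) [Finite ι] [Finite κ] (R : ι × ℝ → ι × ℝ → Prop) (src tgt : κ → ι)
    (lo hi c : κ → ℝ) (l r : ι → ℝ)
    (hR : ∀ z z', R z z' ↔ ∃ k, z.1 = src k ∧ lo k < z.2 ∧ z.2 < hi k ∧ z' = (tgt k, z.2 + c k))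
    (hinj : ∀ z z' z'', R z' z → R z'' z → z' = z'')
    (hran : ∀ k, lo k < hi k →
      l (src k) ≤ lo k ∧ hi k ≤ r (src k) ∧ l (tgt k) ≤ lo k + c k ∧ hi k + c k ≤ r (tgt k))
    (N : Set (ι × ℝ)) (hN : ∀ z z', R z z' → (z ∈ N ↔ z' ∈ N)) (y : ι × ℝ) (hy1 : l y.1 < y.2)
    (hy2 : y.2 < r y.1) (hyN : y ∉ N)
    (hε : ∃ ε : ℝ, 0 < ε ∧ ∀ u, y.2 < u → u < y.2 + ε → (y.1, u) ∈ N) :
    (∃ z, ReflTransGen R y z ∧ ¬ ∃ z', R z z') ∨ TransGen R y y := by
  classical
  by_contra hcon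
  rw [not_or] at hcon
  obtain ⟨h1', h2⟩ := hcon
  have h1 : ∀ z, ReflTransGen R y z → ∃ z', R z z' := by
    intro z hz
    by_contra h
    exact h1' ⟨z, hz, h⟩
  -- the orbit
  obtain ⟨Y, hY0, hY⟩ : ∃ Y : ℕ → ι × ℝ, Y 0 = y ∧ ∀ n, R (Y n) (Y (n + 1)) := by
    let f : {z // ReflTransGen R y z} → {z // ReflTransGen R y z} :=
      fun z => ⟨(h1 z.1 z.2).choose, z.2.tail (h1 z.1 z.2).choose_spec⟩
    refine ⟨fun n => (f^[n] ⟨y, ReflTransGen.refl⟩).1, rfl, fun n => ?_⟩
    change R _ (f^[n + 1] ⟨y, ReflTransGen.refl⟩).1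
    rw [Function.iterate_succ_apply']
    exact (h1 _ (f^[n] ⟨y, ReflTransGen.refl⟩).2).choose_spec
  have hK' := fun n => (hR (Y n) (Y (n + 1))).1 (hY n)
  choose K hK1 hK2 hK3 hK4 using hK'
  have hback : ∀ n m, Y n = Y (n + m) → Y 0 = Y m := by
    intro n
    induction n with
    | zero => intro m h; rw [h, Nat.zero_add]
    | succ n ih =>
      intro m h
      apply ih
      have e1 := hY n
      have e2 := hY (n + m)
      have e3 : n + m + 1 = n + 1 + m := by omega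
      rw [e3, ← h] at e2
      exact hinj _ _ _ e1 e2
  have htrans : ∀ m, 0 < m → TransGen R (Y 0) (Y m) := by
    intro m hm
    induction m with
    | zero => exact absurd hm (lt_irrefl _)
    | succ m ih =>
      rcases Nat.eq_zero_or_pos m with h | h
      · rw [h]; exact TransGen.single (hY 0)
      · exact (ih h).tail (hY m)
  have hlt : ∀ a b, a < b → Y a ≠ Y b := by
    intro a b hab he
    obtain ⟨m, rfl⟩ := Nat.exists_eq_add_of_lt hab
    have h3 : a + m + 1 = a + (m + 1) := by omega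
    rw [h3] at he
    have h4 := hback _ _ he
    have h5 := htrans (m + 1) (Nat.succ_pos m)
    rw [← h4, hY0] at h5
    exact h2 h5
  have hYinj : Function.Injective Y := by
    intro a b hab
    rcases lt_trichotomy a b with h | h | h
    · exact absurd hab (hlt _ _ h)
    · exact h
    · exact absurd hab.symm (hlt _ _ h)
  have hnN : ∀ n, Y n ∉ N := by
    intro n
    induction n with
    | zero => rw [hY0]; exact hyN
    | succ n ih => exact fun h => ih ((hN _ _ (hY n)).2 h)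
  have hnb : ∀ n, ∃ ρ : ℝ, 0 < ρ ∧ ∀ u, (Y n).2 < u → u < (Y n).2 + ρ → ((Y n).1, u) ∈ N := by
    intro n
    induction n with
    | zero => rw [hY0]; exact hε
    | succ n ih =>
      obtain ⟨ρ, hρ, hρN⟩ := ih
      refine ⟨min ρ (hi (K n) - (Y n).2), lt_min hρ (by linarith [hK3 n]), ?_⟩
      rw [hK4 n]
      intro u hu1 hu2
      simp only at hu1 hu2 ⊢
      have hu3 := lt_of_lt_of_le hu2 (add_le_add_right (min_le_left ρ (hi (K n) - (Y n).2)) _)
      have hu4 := lt_of_lt_of_le hu2 (add_le_add_right (min_le_right ρ (hi (K n) - (Y n).2)) _)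
      have h3 : R (src (K n), u - c (K n)) (tgt (K n), u) := by
        rw [hR]
        refine ⟨K n, rfl, ?_, ?_, ?_⟩
        · simp only; linarith [hK2 n]
        · simp only; linarith
        · simp
      refine (hN _ _ h3).1 ?_
      rw [← hK1 n]
      exact hρN _ (by linarith) (by linarith)
  have hran' : ∀ n, l (Y n).1 < (Y n).2 ∧ (Y n).2 < r (Y n).1 := by
    intro n
    rcases n with _ | n
    · rw [hY0]; exact ⟨hy1, hy2⟩
    · rw [hK4 n]
      obtain ⟨_, _, h3, h4⟩ := hran (K n) ((hK2 n).trans (hK3 n))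
      simp only
      exact ⟨by linarith [hK2 n], by linarith [hK3 n]⟩
  -- the bad indices
  let bad : Set ℕ := {n | ∀ u, (Y n).2 < u → u ≤ hi (K n) → (src (K n), u) ∈ N}
  have hbadinj : Set.InjOn K bad := by
    intro a ha b hb hab
    have h1 : (Y a).1 = (Y b).1 := by rw [hK1 a, hK1 b, hab]
    rcases lt_trichotomy (Y a).2 (Y b).2 with h | h | h
    · exfalso
      have := ha (Y b).2 h (by rw [hab]; exact (hK3 b).le)
      rw [← hK1 a, h1] at this
      exact hnN b this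
    · exact hYinj (Prod.ext h1 h)
    · exfalso
      have := hb (Y a).2 h (by rw [← hab]; exact (hK3 a).le)
      rw [← hK1 b, ← h1] at this
      exact hnN a this
  have hbad : bad.Finite := Set.Finite.of_injOn (Set.mapsTo_univ K bad) hbadinj Set.finite_univ
  obtain ⟨n0, hn0⟩ := hbad.bddAbove
  have hgood : ∀ n, n0 < n → n ∉ bad := fun n hn h => absurd (hn0 h) (not_le.2 hn)
  obtain ⟨ρ, hρ, hρN⟩ := hnb (n0 + 1)
  have hall : ∀ m, ∀ u, (Y (n0 + 1 + m)).2 < u → u < (Y (n0 + 1 + m)).2 + ρ →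
      ((Y (n0 + 1 + m)).1, u) ∈ N := by
    intro m
    induction m with
    | zero => exact hρN
    | succ m ih =>
      have hg := hgood (n0 + 1 + m) (by omega)
      have hle : (Y (n0 + 1 + m)).2 + ρ ≤ hi (K (n0 + 1 + m)) := by
        by_contra hlt
        rw [not_le] at hlt
        apply hg
        intro u hu1 hu2
        rw [← hK1]
        exact ih u hu1 (lt_of_le_of_lt hu2 hlt)
      intro u
      change (Y (n0 + 1 + m + 1)).2 < u → u < (Y (n0 + 1 + m + 1)).2 + ρ →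
        ((Y (n0 + 1 + m + 1)).1, u) ∈ N
      rw [hK4 (n0 + 1 + m)]
      intro hu1 hu2
      simp only at hu1 hu2 ⊢
      have h3 : R (src (K (n0 + 1 + m)), u - c (K (n0 + 1 + m))) (tgt (K (n0 + 1 + m)), u) := by
        rw [hR]
        refine ⟨K (n0 + 1 + m), rfl, ?_, ?_, ?_⟩
        · simp only; linarith [hK2 (n0 + 1 + m)]
        · simp only; linarith
        · simp
      refine (hN _ _ h3).1 ?_
      rw [← hK1]
      exact ih _ (by linarith) (by linarith)
  -- the points are separated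
  have hinj2 : Function.Injective
      (fun m : ℕ => ((Y (n0 + 1 + m)).1, ⌊(Y (n0 + 1 + m)).2 / ρ⌋)) := by
    have key : ∀ a b : ℕ, (Y (n0 + 1 + a)).1 = (Y (n0 + 1 + b)).1 →
        ⌊(Y (n0 + 1 + a)).2 / ρ⌋ = ⌊(Y (n0 + 1 + b)).2 / ρ⌋ →
        ¬ (Y (n0 + 1 + a)).2 < (Y (n0 + 1 + b)).2 := by
      intro a b h1 h2 h3
      have h4 : (Y (n0 + 1 + b)).2 < (Y (n0 + 1 + a)).2 + ρ := by
        have h5 := Int.abs_sub_lt_one_of_floor_eq_floor h2
        rw [abs_lt] at h5
        have h6 : (Y (n0 + 1 + b)).2 / ρ < (Y (n0 + 1 + a)).2 / ρ + 1 := by linarith [h5.1]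
        rw [div_add_one hρ.ne', div_lt_div_iff_of_pos_right hρ] at h6
        exact h6
      have h5 := hall a _ h3 h4
      rw [h1] at h5
      exact hnN _ h5
    intro a b hab
    simp only [Prod.mk.injEq] at hab
    obtain ⟨h1, h2⟩ := hab
    have h3 := key a b h1 h2
    have h4 := key b a h1.symm h2.symm
    have h5 : Y (n0 + 1 + a) = Y (n0 + 1 + b) :=
      Prod.ext h1 (le_antisymm (not_lt.1 h4) (not_lt.1 h3))
    have h6 := hYinj h5
    omega
  -- bounds
  obtain ⟨A, hA⟩ : ∃ A, ∀ i, A ≤ l i := by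
    obtain ⟨A, hA⟩ := (Set.finite_range l).bddBelow
    exact ⟨A, fun i => hA ⟨i, rfl⟩⟩
  obtain ⟨B, hB⟩ : ∃ B, ∀ i, r i ≤ B := by
    obtain ⟨B, hB⟩ := (Set.finite_range r).bddAbove
    exact ⟨B, fun i => hB ⟨i, rfl⟩⟩
  have hfin : ((Set.univ : Set ι) ×ˢ (Set.Icc ⌊A / ρ⌋ ⌊B / ρ⌋)).Finite :=
    Set.finite_univ.prod (Set.finite_Icc _ _)
  have hmem : ∀ m : ℕ, ((Y (n0 + 1 + m)).1, ⌊(Y (n0 + 1 + m)).2 / ρ⌋) ∈
      ((Set.univ : Set ι) ×ˢ (Set.Icc ⌊A / ρ⌋ ⌊B / ρ⌋)) := by
    intro m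
    refine ⟨Set.mem_univ _, Int.floor_le_floor ?_, Int.floor_le_floor ?_⟩
    · exact div_le_div_of_nonneg_right ((hA _).trans (hran' _).1.le) hρ.le
    · exact div_le_div_of_nonneg_right ((hran' _).2.le.trans (hB _)) hρ.le
  have hfin2 : (Set.univ : Set ℕ).Finite :=
    Set.Finite.of_injOn (f := fun m : ℕ => ((Y (n0 + 1 + m)).1, ⌊(Y (n0 + 1 + m)).2 / ρ⌋))
      (fun m _ => hmem m) (hinj2.injOn) hfin
  exact Set.infinite_univ hfin2

/-- Forward orbits. -/
theorem fwd (ι κ : Type) [Finite ι] [Finite κ] (R : ι × ℝ → ι × ℝ → Prop) (src tgt : κ → ι)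
    (lo hi c : κ → ℝ) (l r : ι → ℝ)
    (hR : ∀ z z', R z z' ↔ ∃ k, z.1 = src k ∧ lo k < z.2 ∧ z.2 < hi k ∧ z' = (tgt k, z.2 + c k))
    (hinj : ∀ z z' z'', R z' z → R z'' z → z' = z'')
    (hran : ∀ k, lo k < hi k →
      l (src k) ≤ lo k ∧ hi k ≤ r (src k) ∧ l (tgt k) ≤ lo k + c k ∧ hi k + c k ≤ r (tgt k))
    (N : Set (ι × ℝ)) (hN : ∀ z z', R z z' → (z ∈ N ↔ z' ∈ N)) (y : ι × ℝ) (hy1 : l y.1 < y.2)
    (hy2 : y.2 < r y.1) (hyN : y ∉ N)
    (hε : ∃ ε : ℝ, 0 < ε ∧ ((∀ u, y.2 < u → u < y.2 + ε → (y.1, u) ∈ N) ∨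
      ∀ u, y.2 - ε < u → u < y.2 → (y.1, u) ∈ N)) :
    (∃ z, ReflTransGen R y z ∧ ¬ ∃ z', R z z') ∨ TransGen R y y := by
  obtain ⟨ε, hε, h | h⟩ := hε
  · exact main ι κ R src tgt lo hi c l r hR hinj hran N hN y hy1 hy2 hyN ⟨ε, hε, h⟩
  · -- reflection
    let φ : ι × ℝ → ι × ℝ := fun z => (z.1, -z.2)
    have hφ : ∀ z, φ (φ z) = z := fun z => by simp [φ]
    have key := main ι κ (fun z z' => R (φ z) (φ z')) src tgt (fun k => -hi k) (fun k => -lo k)
      (fun k => -c k) (fun i => -r i) (fun i => -l i) (fun z z' => by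
        rw [hR]
        refine exists_congr fun k => ?_
        simp only [φ]
        constructor
        · rintro ⟨h1, h2, h3, h4⟩
          refine ⟨h1, by linarith, by linarith, ?_⟩
          rw [Prod.mk.injEq] at h4
          exact Prod.ext h4.1 (by simp only; linarith [h4.2])
        · rintro ⟨h1, h2, h3, h4⟩
          refine ⟨h1, by linarith, by linarith, ?_⟩
          rw [h4]
          simp only [Prod.mk.injEq, true_and]
          ring)
      (fun z z' z'' h1 h2 => by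
        have h3 := hinj _ _ _ h1 h2
        rw [← hφ z', h3, hφ])
      (fun k hk => by
        obtain ⟨h1, h2, h3, h4⟩ := hran k (by linarith)
        exact ⟨by linarith, by linarith, by linarith, by linarith⟩)
      (φ ⁻¹' N) (fun z z' hz => hN _ _ hz) (φ y) (by simp only [φ]; linarith)
      (by simp only [φ]; linarith) (by rw [Set.mem_preimage, hφ]; exact hyN)
      ⟨ε, hε, fun u hu1 hu2 => by
        simp only [φ] at hu1 hu2 ⊢
        exact h (-u) (by linarith) (by linarith)⟩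
    rcases key with ⟨z, hz1, hz2⟩ | hz
    · left
      refine ⟨φ z, ?_, ?_⟩
      · have : ReflTransGen R (φ (φ y)) (φ z) :=
          ReflTransGen.lift (p := R) φ (fun a b hab => hab) _ _ hz1
        rwa [hφ] at this
      · rintro ⟨z', hz'⟩
        exact hz2 ⟨φ z', by rw [hφ]; exact hz'⟩
    · right
      have : TransGen R (φ (φ y)) (φ (φ y)) :=
        TransGen.lift (p := R) φ (fun a b hab => hab) _ _ hz
      rwa [hφ] at this

/-- **KE**. -/
theorem t_KE : S_KE := by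
  intro ι κ _ _ R src tgt lo hi c l r hR hdet hinj hran _ _ N _ _ hN y hy1 hy2 hyN hε
  refine ⟨fwd ι κ R src tgt lo hi c l r hR hinj hran N hN y hy1 hy2 hyN hε, ?_⟩
  have key := fwd ι κ (Function.swap R) tgt src (fun k => lo k + c k) (fun k => hi k + c k)
    (fun k => -c k) l r (fun z z' => by
      change R z' z ↔ _
      rw [hR]
      refine exists_congr fun k => ?_
      constructor
      · rintro ⟨h1, h2, h3, h4⟩
        rw [h4]
        refine ⟨rfl, by simp only; linarith, by simp only; linarith, ?_⟩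
        exact Prod.ext h1 (by simp)
      · rintro ⟨h1, h2, h3, h4⟩
        rw [h4]
        refine ⟨rfl, by simp only; linarith, by simp only; linarith, ?_⟩
        exact Prod.ext h1 (by simp))
    (fun z z' z'' h1 h2 => hdet z z' z'' h1 h2)
    (fun k hk => by
      obtain ⟨h1, h2, h3, h4⟩ := hran k (by linarith)
      exact ⟨h3, h4, by simpa using h1, by simpa using h2⟩)
    N (fun z z' hz => (hN _ _ hz).symm) y hy1 hy2 hyN hε
  rcases key with ⟨z, hz1, hz2⟩ | hz
  · left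
    exact ⟨z, reflTransGen_swap.1 hz1, fun ⟨z', hz'⟩ => hz2 ⟨z', hz'⟩⟩
  · right
    exact transGen_swap.1 hz

end Pool.Agent.U511.BM.KE
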